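import Pool.Agent.helper54.TS.Spec

set_option autoImplicit false

open Polynomial Finset

noncomputable section

namespace Pool.Agent.TS

open Pool.Agent.PSA (IsSalem Indep Fac)

/-- the three forms of `rho` -/
theorem CMS_rho {κ θ r : ℝ} (hκθ : κ ≤ θ) :
    (r < κ ∧ rho κ θ r = r) ∨ (κ ≤ r ∧ r < θ ∧ rho κ θ r = r - κ) ∨ (κ ≤ r ∧ θ ≤ r ∧ rho κ θ r = r - θ) := by
  unfold rho
  by_cases h1 : r < κ
  · left
    exact ⟨h1, if_pos h1⟩
  · right
    rw [if_neg h1]
    push Not at h1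
    by_cases h2 : r < θ
    · left
      exact ⟨h1, h2, if_pos h2⟩
    · right
      rw [if_neg h2]
      push Not at h2
      exact ⟨h1, h2, rfl⟩

theorem CMS_move {κ θ r s : ℝ} (hs0 : 0 ≤ s) (hκθ : κ ≤ θ) (hs : s ≤ rho κ θ r) :
    rho κ θ (r - s) = rho κ θ r - s := by
  rcases CMS_rho (r := r) hκθ with ⟨h1, h2⟩ | ⟨h1, h2, h3⟩ | ⟨h1, h2, h3⟩
  · rw [h2]
    unfold rho
    rw [if_pos (by linarith)]
  · rw [h3]
    rw [h3] at hs
    unfold rho
    rw [if_neg (by linarith), if_pos (by linarith)]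
    ring
  · rw [h3]
    rw [h3] at hs
    unfold rho
    rw [if_neg (by linarith), if_neg (by linarith)]
    ring

theorem CMS : CMS_stmt := by
  intro K _ ι b κ θ hb hκ hκθ
  classical
  have hle : ι κ ≤ ι θ := by
    rcases hκθ with ⟨h1, h2⟩ | ⟨h1, -⟩
    · rw [h1, h2]
    · exact h1.le
  have hθ : 0 < ι θ := by linarith
  refine ⟨by linarith, ?_, ?_, ?_⟩
  · refine ⟨(range (⌊ι b⌋₊ + 1)).biUnion fun a => {(a : K), (a : K) + κ, (a : K) + θ}, ?_, ?_⟩
    · intro e he
      rw [mem_biUnion] at he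
      obtain ⟨a, -, ha⟩ := he
      have h0 : (0 : ℝ) ≤ (a : ℝ) := Nat.cast_nonneg a
      rw [mem_insert, mem_insert, mem_singleton] at ha
      rcases ha with h | h | h
      · rw [h, map_natCast]
        exact h0
      · rw [h, map_add, map_natCast]
        linarith
      · rw [h, map_add, map_natCast]
        linarith
    · intro y hy0 hy1
      have hby : 0 ≤ ι b * y := mul_nonneg (by linarith) hy0
      have hfl : (⌊ι b * y⌋₊ : ℝ) = ι b * y - Int.fract (ι b * y) := by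
        have h1 : (⌊ι b * y⌋₊ : ℝ) = ((⌊ι b * y⌋ : ℤ) : ℝ) := natCast_floor_eq_intCast_floor hby
        rw [h1]
        have h2 := Int.floor_add_fract (ι b * y)
        linarith
      have hmem : ⌊ι b * y⌋₊ ∈ range (⌊ι b⌋₊ + 1) := by
        rw [mem_range]
        have h1 : ι b * y ≤ ι b := by nlinarith
        have h2 := Nat.floor_le_floor h1
        omega
      rcases CMS_rho (r := Int.fract (ι b * y)) hle with ⟨h1, h2⟩ | ⟨h1, h2, h3⟩ | ⟨h1, h2, h3⟩
      · refine ⟨(⌊ι b * y⌋₊ : K), mem_biUnion.2 ⟨_, hmem, by simp⟩, ?_⟩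
        show rho (ι κ) (ι θ) (Int.fract (ι b * y)) = _
        rw [h2, map_natCast, hfl]
        ring
      · refine ⟨(⌊ι b * y⌋₊ : K) + κ, mem_biUnion.2 ⟨_, hmem, by simp⟩, ?_⟩
        show rho (ι κ) (ι θ) (Int.fract (ι b * y)) = _
        rw [h3, map_add, map_natCast, hfl]
        ring
      · refine ⟨(⌊ι b * y⌋₊ : K) + θ, mem_biUnion.2 ⟨_, hmem, by simp⟩, ?_⟩
        show rho (ι κ) (ι θ) (Int.fract (ι b * y)) = _
        rw [h3, map_add, map_natCast, hfl]
        ring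
  · intro y hy0 hy1
    have hr0 := Int.fract_nonneg (ι b * y)
    have hr1 := Int.fract_lt_one (ι b * y)
    show 0 ≤ rho (ι κ) (ι θ) (Int.fract (ι b * y)) ∧ rho (ι κ) (ι θ) (Int.fract (ι b * y)) < 1
    rcases CMS_rho (r := Int.fract (ι b * y)) hle with ⟨h1, h2⟩ | ⟨h1, h2, h3⟩ | ⟨h1, h2, h3⟩
    · rw [h2]
      exact ⟨hr0, hr1⟩
    · rw [h3]
      constructor <;> linarith
    · rw [h3]
      constructor <;> linarith
  · intro y' y hy'0 hy'y hy1 hcell
    have hcell' : ι b * (y - y') ≤ rho (ι κ) (ι θ) (Int.fract (ι b * y)) := hcell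
    show rho (ι κ) (ι θ) (Int.fract (ι b * y')) = rho (ι κ) (ι θ) (Int.fract (ι b * y)) - ι b * (y - y')
    have hs0 : 0 ≤ ι b * (y - y') := mul_nonneg (by linarith) (by linarith)
    have hr0 := Int.fract_nonneg (ι b * y)
    have hr1 := Int.fract_lt_one (ι b * y)
    have hrr : rho (ι κ) (ι θ) (Int.fract (ι b * y)) ≤ Int.fract (ι b * y) := by
      rcases CMS_rho (r := Int.fract (ι b * y)) hle with ⟨h1, h2⟩ | ⟨h1, h2, h3⟩ | ⟨h1, h2, h3⟩
      · rw [h2]
      · rw [h3]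
        linarith
      · rw [h3]
        linarith
    have hfr : Int.fract (ι b * y') = Int.fract (ι b * y) - ι b * (y - y') := by
      rw [Int.fract_eq_iff]
      refine ⟨by linarith, by linarith, ⌊ι b * y⌋, ?_⟩
      have h2 := Int.floor_add_fract (ι b * y)
      linarith
    rw [hfr]
    exact CMS_move hs0 hle hcell'

end Pool.Agent.TS

end
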