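import Pool.Agent.helper54.TS.Spec

set_option autoImplicit false

open Polynomial Finset

noncomputable section

namespace Pool.Agent.TS

open Pool.Agent.PSA (IsSalem Indep Fac)

theorem GRO : GRO_stmt := by
  intro z A B C n hz0 hz1 hB hC
  have hlim : Filter.Tendsto (fun J : ℕ => (4 * |A| * (B + C) ^ n * z⁻¹) * (((J + 1 : ℕ) : ℝ) ^ n * z ^ (J + 1)))
      Filter.atTop (nhds 0) := by
    have h1 := tendsto_pow_const_mul_const_pow_of_abs_lt_one n (r := z) (by rw [abs_of_pos hz0]; exact hz1)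
    have h2 := (h1.comp (Filter.tendsto_add_atTop_nat 1)).const_mul (4 * |A| * (B + C) ^ n * z⁻¹)
    rw [mul_zero] at h2
    exact h2
  obtain ⟨J₀, hJ₀⟩ := Filter.eventually_atTop.1 (hlim.eventually (gt_mem_nhds (zero_lt_one)))
  refine ⟨J₀, fun J hJ => lt_of_le_of_lt ?_ (hJ₀ J hJ)⟩
  have hJ0 : (0 : ℝ) ≤ (J : ℝ) := Nat.cast_nonneg J
  have hb0 : 0 ≤ B + C * J := by positivity
  have hb : B + C * J ≤ (B + C) * ((J + 1 : ℕ) : ℝ) := by
    push_cast
    nlinarith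
  have hpow : (B + C * J) ^ n ≤ (B + C) ^ n * ((J + 1 : ℕ) : ℝ) ^ n := by
    rw [← mul_pow]
    exact pow_le_pow_left₀ hb0 hb n
  have hzJ : 0 < z ^ J := pow_pos hz0 J
  calc 4 * z ^ J * (A * (B + C * J) ^ n) ≤ 4 * z ^ J * (|A| * (B + C * J) ^ n) := by
        refine mul_le_mul_of_nonneg_left ?_ (by positivity)
        exact mul_le_mul_of_nonneg_right (le_abs_self A) (pow_nonneg hb0 n)
    _ ≤ 4 * z ^ J * (|A| * ((B + C) ^ n * ((J + 1 : ℕ) : ℝ) ^ n)) := by
        refine mul_le_mul_of_nonneg_left ?_ (by positivity)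
        exact mul_le_mul_of_nonneg_left hpow (abs_nonneg A)
    _ = (4 * |A| * (B + C) ^ n * z⁻¹) * (((J + 1 : ℕ) : ℝ) ^ n * z ^ (J + 1)) := by
        rw [pow_succ z J]
        field_simp

end Pool.Agent.TS

end
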